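import Pool.Agent.Helper18.SU.Goals3

/-!
Packet SU3 CIA3: the split case, assembled.
-/

set_option autoImplicit false

namespace Pool.Agent.Helper27.SU

open Pool.Agent.Helper18.SU

lemma mem_typ' {V : Type} (A : V → V → Prop) (X : Finset V) (p E : ℕ) (x : V) :
    x ∈ typ A X p E ↔ x ∈ X ∧ p ≤ (nb A true X x).card + E := by
  classical
  unfold typ
  rw [Finset.mem_filter]

lemma num_cia3 (p u e T Xc : ℕ) (h1 : 9496 * Xc ≤ 13802 * T) (h2 : 2 * p ≤ Xc + 2903 * u)
    (hu : 1 ≤ u)
    (h3 : (e = 0 ∧ 3060000 * u ≤ p) ∨ (e = 8504 * u ∧ 10000000 * u ≤ p)) :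
    p + 701 * u + 2 * (14 * (34503 * u + 6 * e)) + 1 + 181800 * u ≤ T := by
  by_contra hcon
  rw [not_le] at hcon
  rcases h3 with ⟨h3, h4⟩ | ⟨h3, h4⟩ <;> subst h3
  · zify at *
    nlinarith
  · zify at *
    nlinarith

theorem CIA3 (h1 : ASZ_stmt) (h2 : TYP_stmt) (h3 : BAL_stmt) (h4 : TBG_stmt) (h5 : DST_stmt)
    (h6 : SPL3_stmt) (_ : DSC_stmt) (_ : SIZ_stmt) : CIA3_stmt := by
  intro W V _ _ _ _ A r par dep sgn K u m g e hH v hv σ C hC hθ1 hθ2
  obtain ⟨hctx, hm, hC0, hp, halt, hg, hgn, hμ, hmid⟩ := hH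
  set p := mas par sgn K true with hpdef
  set q := mas par sgn K false with hqdef
  set X := low A true (p + 701 * u) with hX
  have hC0' : C0 = 10000000 := rfl
  have hu : 1 ≤ u := by omega
  have hTour : Tour A := hctx.1
  have hcard : Fintype.card V + 2 = 2 * Fintype.card W := hctx.2.2.2.2.2.2
  obtain ⟨a1, a2, a3⟩ := h1 W V A r par dep sgn K (100 * u) m (701 * u) (1501 * u) hctx
    (by omega) hmid
  rw [← hpdef, ← hX] at a1 a2 a3
  have a1' : 2 * p ≤ X.card + 2903 * u := by omega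
  have a3' : ∀ x ∈ X, (nb A true X x).card ≤ p + 701 * u := fun x hx => ((a3 x hx).1).le
  have hT := h2 V A hTour X p (701 * u) (2903 * u) (6200 * u) a3' a1'
  set S := typ A X p (6200 * u) with hS
  have hSX : S ⊆ X := by
    intro x hx
    exact ((mem_typ' A X p _ x).1 hx).1
  have hk : 13802 * (X \ S).card ≤ 4306 * X.card := by
    have e1 : 2 * (X \ S).card * (6200 * u + 701 * u) = 13802 * (X \ S).card * u := by ring
    have e2 : X.card * (2 * (701 * u) + 2903 * u + 1) ≤ 4306 * X.card * u := by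
      have : 2 * (701 * u) + 2903 * u + 1 ≤ 4306 * u := by omega
      calc X.card * (2 * (701 * u) + 2903 * u + 1) ≤ X.card * (4306 * u) :=
            Nat.mul_le_mul_left _ this
        _ = 4306 * X.card * u := by ring
    rw [e1] at hT
    exact Nat.le_of_mul_le_mul_right (hT.trans e2) (by omega)
  have hTc : (X \ S).card + S.card = X.card := Finset.card_sdiff_add_card_eq_card hSX
  have hTT : 9496 * X.card ≤ 13802 * S.card := by omega
  obtain ⟨d1, d2, d3, -, -, d6⟩ := h5 V A X
  have hXV : X.card ≤ Fintype.card V := Finset.card_le_univ X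
  have hnum := num_cia3 p u e S.card X.card hTT a1' hu (by
    rcases halt with h | h
    · exact Or.inl ⟨h.2, hp⟩
    · exact Or.inr ⟨h.2.1, h.2.2⟩)
  obtain ⟨X1, hX1, X2, hX2, hdis, hc1, hc2, hfar⟩ := h4 V (dst A X) (34503 * u + 6 * e) g 14
    (4 * (3 * m + C0)) (p + 701 * u + 2 * (14 * (34503 * u + 6 * e)) + 1) S d1 d2 d3 hg
    (by norm_num)
    (by
      have := Finset.card_le_card hSX
      omega)
    (by
      intro x hx
      have h7 := h3 V A hTour X (p + 701 * u) a3' x (hSX hx) (14 * (34503 * u + 6 * e))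
      exact (Finset.card_le_card (Finset.filter_subset_filter _ hSX)).trans h7)
    (by omega)
  refine h6 W V A r par dep sgn K (100 * u) m (701 * u) (2903 * u) (6200 * u) e
    (6801 * u + e) (13701 * u + 2 * e) hctx a1' a2 ?_ (by omega) (by omega) v hv σ C hC hθ1 hθ2
    X1 X2 hX1 hX2 hdis hc1 hc2 ?_
  · rw [← hpdef, ← hqdef]
    rcases halt with h | h
    · left; omega
    · right
      constructor <;> omega
  · intro x hx y hy
    rw [← hpdef, ← hX]
    have b1 := hfar x hx y hy
    have b2 := d6 x y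
    have b3 := ((mem_typ' A X p _ x).1 (hX1 hx)).2
    have b4 := a3' y (hSX (hX2 hy))
    omega

end Pool.Agent.Helper27.SU
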