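import Pool.Agent.Helper18.SU.Goals2

/-!
Packet SU2 GLUE: gluing embedded subtrees to an embedded core.
-/

set_option autoImplicit false

namespace Pool.Agent.Helper27.SU

open Pool.Agent.Helper18.SU

open Classical in
lemma mem_dsi {W : Type} [Fintype W] (par : W → W) (S : Finset W) (c w : W) :
    w ∈ dsi par S c ↔ w ∈ dsc par c ∧ w ∈ S := by
  unfold dsi
  rw [Finset.mem_filter]

open Classical in
lemma mem_tops {W : Type} [Fintype W] (par : W → W) (S : Finset W) (c : W) :
    c ∈ tops par S ↔ c ∉ S ∧ par c ∈ S := by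
  unfold tops
  rw [Finset.mem_filter]
  exact ⟨fun h => h.2, fun h => ⟨Finset.mem_univ _, h⟩⟩

theorem GLUE (h1 : DSC_stmt) : GLUE_stmt := by
  classical
  intro W V _ _ _ _ A r par dep hR sgn S₀ S hrS hS₀ hSS hS f₀ hf₀ U hitm hUsub hUdis
  obtain ⟨d1, d2, d3, -, -, -, d7⟩ := h1 W r par dep hR
  obtain ⟨e1, e2, e3, -, -⟩ := d7 S₀ hrS hS₀
  have mdsi : ∀ c w, w ∈ dsi par S c ↔ w ∈ dsc par c ∧ w ∈ S := mem_dsi par S
  have mtops : ∀ c, c ∈ tops par S₀ ↔ c ∉ S₀ ∧ par c ∈ S₀ := mem_tops par S₀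
  have hiter : ∀ (k : ℕ) (w : W), w ∈ S → par^[k] w ∈ S := by
    intro k
    induction k with
    | zero => intro w hw; exact hw
    | succ k ih =>
      intro w hw
      rw [Function.iterate_succ_apply]
      exact ih _ (hS w hw)
  have hcS : ∀ c w, w ∈ S → w ∈ dsc par c → c ∈ S := by
    intro c w hw hwc
    unfold dsc at hwc
    obtain ⟨-, k, hk⟩ := Finset.mem_filter.1 hwc
    rw [← hk]
    exact hiter k w hw
  have htp : ∀ w, ∃ c, w ∉ S₀ → (c ∈ tops par S₀ ∧ w ∈ dsc par c) := by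
    intro w
    by_cases h : w ∈ S₀
    · exact ⟨w, fun h' => absurd h h'⟩
    · obtain ⟨c, hc, hw⟩ := e1 w h
      exact ⟨c, fun _ => ⟨hc, hw⟩⟩
  choose tp htp using htp
  have huniq : ∀ c ∈ tops par S₀, ∀ w ∈ dsc par c, w ∉ S₀ ∧ tp w = c := by
    intro c hc w hw
    have h2 : w ∉ S₀ := fun h => Finset.disjoint_left.1 (e2 c hc).2 hw h
    refine ⟨h2, ?_⟩
    by_contra hne
    exact Finset.disjoint_left.1 (e3 (tp w) (htp w h2).1 c hc hne) (htp w h2).2 hw
  have hg : ∀ c, ∃ g : W → V, c ∈ tops par S₀ → c ∈ S → Emb A r par sgn (dsi par S c) (U c) g := by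
    intro c
    by_cases h : c ∈ tops par S₀ ∧ c ∈ S
    · obtain ⟨g, hg⟩ := hitm c h.1 h.2
      exact ⟨g, fun _ _ => hg⟩
    · exact ⟨f₀, fun h2 h3 => absurd ⟨h2, h3⟩ h⟩
  choose g hg using hg
  let f : W → V := fun w => if w ∈ S₀ then f₀ w else g (tp w) w
  have f1 : ∀ w, w ∈ S₀ → f w = f₀ w := fun w hw => if_pos hw
  have f2 : ∀ w, w ∉ S₀ → f w = g (tp w) w := fun w hw => if_neg hw
  have key : ∀ w ∈ S, w ∉ S₀ → tp w ∈ tops par S₀ ∧ tp w ∈ S ∧ w ∈ dsi par S (tp w) := by
    intro w hw hw0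
    obtain ⟨h2, h3⟩ := htp w hw0
    exact ⟨h2, hcS _ w hw h3, (mdsi _ _).2 ⟨h3, hw⟩⟩
  have fU : ∀ w ∈ S, w ∉ S₀ → f w ∈ U (tp w) := by
    intro w hw hw0
    obtain ⟨h2, h3, h4⟩ := key w hw hw0
    rw [f2 w hw0]
    exact (hg (tp w) h2 h3).1 w h4
  have fnot : ∀ w ∈ S, w ∉ S₀ → ∀ u ∈ S₀, f u ≠ f w := by
    intro w hw hw0 u hu he
    obtain ⟨h2, h3, h4⟩ := key w hw hw0
    have h5 := (Finset.mem_sdiff.1 (hUsub _ h2 h3 (fU w hw hw0))).2
    apply h5
    rw [← he, f1 u hu]
    exact Finset.mem_image_of_mem _ hu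
  refine ⟨f, ⟨fun v _ => Finset.mem_univ _, ?_, ?_⟩, f1, ?_⟩
  · intro u hu v hv he
    by_cases hu0 : u ∈ S₀
    · by_cases hv0 : v ∈ S₀
      · rw [f1 u hu0, f1 v hv0] at he
        exact hf₀.2.1 u hu0 v hv0 he
      · exact absurd he (fnot v hv hv0 u hu0)
    · by_cases hv0 : v ∈ S₀
      · exact absurd he.symm (fnot u hu hu0 v hv0)
      · obtain ⟨a1, a2, a3⟩ := key u hu hu0
        obtain ⟨b1, b2, b3⟩ := key v hv hv0
        by_cases ht : tp u = tp v
        · have hfu : g (tp u) u = g (tp u) v := by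
            rw [← f2 u hu0, he, f2 v hv0, ht]
          refine (hg (tp u) a1 a2).2.1 u a3 v ?_ hfu
          rw [ht]; exact b3
        · exfalso
          have c1 := fU u hu hu0
          have c2 := fU v hv hv0
          rw [he] at c1
          exact Finset.disjoint_left.1 (hUdis _ a1 a2 _ b1 b2 ht) c1 c2
  · intro v hv hvr hpv
    by_cases hv0 : v ∈ S₀
    · have hp0 := hS₀ v hv0
      rw [f1 v hv0, f1 _ hp0]
      exact hf₀.2.2 v hv0 hvr hp0
    · obtain ⟨a1, a2, a3⟩ := key v hv hv0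
      by_cases hvc : v = tp v
      · have hp0 : par v ∈ S₀ := by
          have := ((mtops (tp v)).1 a1).2
          rwa [← hvc] at this
        have h6 := (Finset.mem_sdiff.1 (hUsub _ a1 a2 (fU v hv hv0))).1
        unfold nb at h6
        have h7 := (Finset.mem_filter.1 h6).2
        rw [← hvc] at h7
        rw [f1 _ hp0]
        exact h7
      · have h6 : par v ∈ dsc par (tp v) := d2 _ v ((mdsi _ _).1 a3).1 hvc
        obtain ⟨h7, h8⟩ := huniq (tp v) a1 (par v) h6
        rw [f2 v hv0, f2 _ h7, h8]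
        exact (hg (tp v) a1 a2).2.2 v a3 hvr ((mdsi _ _).2 ⟨h6, hpv⟩)
  · intro c hc hcS' w hw
    obtain ⟨h2, h3⟩ := (mdsi _ _).1 hw
    obtain ⟨h4, h5⟩ := huniq c hc w h2
    have := fU w h3 h4
    rwa [h5] at this

theorem GLU (_ : DSC_stmt) (h2 : GLUE_stmt) : GLU_stmt := by
  classical
  intro W V _ _ _ _ A r par dep hR sgn K hrK hK f₀ hf₀ U₁ U₀ O₁ O₀ hP1 hP0 hO1 hO0 hdis
  have hmem : ∀ c ∈ tops par K, ∀ d, sgn c = d → c ∈ topd par sgn K d := by
    intro c hc d hd
    unfold topd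
    exact Finset.mem_filter.2 ⟨hc, hd⟩
  obtain ⟨f, hf, -, -⟩ := h2 W V A r par dep hR sgn K Finset.univ hrK hK (Finset.subset_univ _)
    (fun v _ => Finset.mem_univ _) f₀ hf₀ (fun c => if sgn c = true then U₁ c else U₀ c)
    (by
      intro c hc _
      by_cases hs : sgn c = true
      · simp only [if_pos hs]
        exact (hP1.1 c (hmem c hc _ hs)).2.2
      · simp only [if_neg hs]
        exact (hP0.1 c (hmem c hc _ (by simpa using hs))).2.2)
    (by
      intro c hc _
      by_cases hs : sgn c = true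
      · simp only [if_pos hs]
        have h3 := hmem c hc _ hs
        have h4 := ((hP1.1 c h3).1).trans (hO1 c h3)
        rw [hs]
        exact h4
      · have hs' : sgn c = false := by simpa using hs
        simp only [if_neg hs]
        have h3 := hmem c hc _ hs'
        have h4 := ((hP0.1 c h3).1).trans (hO0 c h3)
        rw [hs']
        exact h4)
    (by
      intro c hc _ c' hc' _ hne
      by_cases hs : sgn c = true
      · by_cases hs' : sgn c' = true
        · simp only [if_pos hs, if_pos hs']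
          exact hP1.2 c (hmem c hc _ hs) c' (hmem c' hc' _ hs') hne
        · simp only [if_pos hs, if_neg hs']
          exact hdis c (hmem c hc _ hs) c' (hmem c' hc' _ (by simpa using hs'))
      · by_cases hs' : sgn c' = true
        · simp only [if_neg hs, if_pos hs']
          exact (hdis c' (hmem c' hc' _ hs') c (hmem c hc _ (by simpa using hs))).symm
        · simp only [if_neg hs, if_neg hs']
          exact hP0.2 c (hmem c hc _ (by simpa using hs)) c'
            (hmem c' hc' _ (by simpa using hs')) hne)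
  exact ⟨f, hf⟩

end Pool.Agent.Helper27.SU
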