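import Pool.Agent.Helper18.SU.Goals2

/-!
Packet SU2 WT: a weighted separator.
-/

set_option autoImplicit false

namespace Pool.Agent.Helper27.SU.WTs

open Pool.Agent.Helper18.SU

open Classical in
lemma mem_cut {W : Type} [Fintype W] (par : W → W) (K C : Finset W) (x : W) :
    x ∈ cut par K C ↔ x ∈ K ∧ ∃ c ∈ C, x ∈ dsc par c := by
  unfold cut
  rw [Finset.mem_filter]

open Classical in
lemma mem_dsc {W : Type} [Fintype W] (par : W → W) (c x : W) :
    x ∈ dsc par c ↔ ∃ k : ℕ, par^[k] x = c := by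
  unfold dsc
  rw [Finset.mem_filter]
  exact ⟨fun h => h.2, fun h => ⟨Finset.mem_univ _, h⟩⟩

/-- A subset with sum between `θ` and `2 θ`. -/
lemma sub_sum {W : Type} (w : W → ℕ) (θ : ℕ) (C : Finset W) (hw : ∀ c ∈ C, w c < θ)
    (hC : θ ≤ ∑ c ∈ C, w c) : ∃ C' ⊆ C, θ ≤ ∑ c ∈ C', w c ∧ ∑ c ∈ C', w c ≤ 2 * θ := by
  classical
  induction C using Finset.induction_on with
  | empty =>
    refine ⟨∅, le_rfl, hC, ?_⟩
    simp
  | insert a s ha ih =>
    by_cases hs : θ ≤ ∑ c ∈ s, w c
    · obtain ⟨C', h1, h2, h3⟩ := ih (fun c hc => hw c (Finset.mem_insert_of_mem hc)) hs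
      exact ⟨C', h1.trans (Finset.subset_insert _ _), h2, h3⟩
    · refine ⟨insert a s, le_rfl, hC, ?_⟩
      rw [Finset.sum_insert ha]
      have := hw a (Finset.mem_insert_self _ _)
      omega

open Classical in
lemma wt_aux {W : Type} [Fintype W] (r : W) (par : W → W) (dep : W → ℕ)
    (hR : Rooted r par dep) (d4 : ∀ c w, w ∈ dsc par c → w ≠ c → dep c < dep w)
    (d5 : ∀ w, w ∈ dsc par r) (sgn : W → Bool) (K : Finset W) (hrK : r ∈ K)
    (hK : ∀ v ∈ K, par v ∈ K) (ω : W → ℕ) (θ : ℕ) (hθ : 3 * θ ≤ ∑ x ∈ K, ω x) :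
      ∃ v ∈ K, (∑ x ∈ K, ω x ≤ ω v + 3 * θ) ∨
        ∃ (σ : Bool) (C : Finset W), (∀ c ∈ C, c ∈ K ∧ c ≠ r ∧ par c = v ∧ sgn c = σ) ∧
          θ ≤ ∑ x ∈ cut par K C, ω x ∧ θ + ∑ x ∈ cut par K C, ω x ≤ ∑ x ∈ K, ω x := by
  set p := ∑ x ∈ K, ω x with hp
  let T : W → Finset W := fun v => K.filter (fun x => x ∈ dsc par v)
  let w : W → ℕ := fun v => ∑ x ∈ T v, ω x
  have hwr : w r = p := by
    have : T r = K := by
      ext x
      simp only [T, Finset.mem_filter]
      exact ⟨fun h => h.1, fun h => ⟨h, d5 x⟩⟩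
    show ∑ x ∈ T r, ω x = p
    rw [this]
  -- the vertex of maximal depth
  obtain ⟨v, hv, hmax⟩ := Finset.exists_max_image (K.filter (fun v => p ≤ w v + θ)) dep
    ⟨r, Finset.mem_filter.2 ⟨hrK, by rw [hwr]; omega⟩⟩
  obtain ⟨hvK, hvp⟩ := Finset.mem_filter.1 hv
  have hchild : ∀ c ∈ K, c ≠ r → par c = v → w c + θ < p := by
    intro c hc hcr hcv
    by_contra h
    have h1 := hmax c (Finset.mem_filter.2 ⟨hc, by omega⟩)
    have h2 := hR.2.2 c hcr
    rw [hcv] at h2
    omega
  -- disjointness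
  have hdis : ∀ c c', c ≠ r → par c = v → c' ≠ r → par c' = v → c ≠ c' →
      Disjoint (T c) (T c') := by
    intro c c' hc hcv hc' hcv' hne
    have hdc := hR.2.2 c hc
    have hdc' := hR.2.2 c' hc'
    rw [hcv] at hdc
    rw [hcv'] at hdc'
    have hno : ∀ c, dep v + 1 = dep c → v ∉ dsc par c := by
      intro c hd hmem
      by_cases h : v = c
      · rw [← h] at hd; omega
      · have := d4 c v hmem h
        omega
    rw [Finset.disjoint_left]
    intro x hx hx'
    obtain ⟨i, hi⟩ := (mem_dsc par c x).1 (Finset.mem_filter.1 hx).2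
    obtain ⟨j, hj⟩ := (mem_dsc par c' x).1 (Finset.mem_filter.1 hx').2
    rcases lt_trichotomy i j with h | h | h
    · obtain ⟨m, rfl⟩ : ∃ m, j = m + (1 + i) := ⟨j - (1 + i), by omega⟩
      refine hno c' hdc' ((mem_dsc par c' v).2 ⟨m, ?_⟩)
      rw [Function.iterate_add_apply, Function.iterate_add_apply, hi, Function.iterate_one,
        hcv] at hj
      exact hj
    · rw [h] at hi
      exact hne (hi.symm.trans hj)
    · obtain ⟨m, rfl⟩ : ∃ m, i = m + (1 + j) := ⟨i - (1 + j), by omega⟩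
      refine hno c hdc ((mem_dsc par c v).2 ⟨m, ?_⟩)
      rw [Function.iterate_add_apply, Function.iterate_add_apply, hj, Function.iterate_one,
        hcv'] at hi
      exact hi
  have hsumU : ∀ C : Finset W, (∀ c ∈ C, c ≠ r ∧ par c = v) →
      ∑ x ∈ C.biUnion T, ω x = ∑ c ∈ C, w c := by
    intro C hC
    rw [Finset.sum_biUnion]
    intro c hc c' hc' hne
    exact hdis c c' (hC c hc).1 (hC c hc).2 (hC c' hc').1 (hC c' hc').2 hne
  have hcutU : ∀ C : Finset W, cut par K C = C.biUnion T := by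
    intro C
    ext x
    rw [mem_cut, Finset.mem_biUnion]
    simp only [T, Finset.mem_filter]
    constructor
    · rintro ⟨h1, c, h2, h3⟩
      exact ⟨c, h2, h1, h3⟩
    · rintro ⟨c, h2, h1, h3⟩
      exact ⟨h1, c, h2, h3⟩
  refine ⟨v, hvK, ?_⟩
  by_cases hA : ∃ c ∈ K, c ≠ r ∧ par c = v ∧ θ ≤ w c
  · obtain ⟨c, hc, hcr, hcv, hcw⟩ := hA
    right
    refine ⟨sgn c, {c}, ?_, ?_, ?_⟩
    · intro c' hc'
      rw [Finset.mem_singleton] at hc'
      subst hc'
      exact ⟨hc, hcr, hcv, rfl⟩
    · rw [hcutU, Finset.singleton_biUnion]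
      exact hcw
    · rw [hcutU, Finset.singleton_biUnion]
      have := hchild c hc hcr hcv
      have h2 : ∑ x ∈ T c, ω x = w c := rfl
      omega
  · push Not at hA
    let Cσ : Bool → Finset W := fun σ => K.filter (fun c => c ≠ r ∧ par c = v ∧ sgn c = σ)
    have hCσ : ∀ σ, ∀ c ∈ Cσ σ, c ∈ K ∧ c ≠ r ∧ par c = v ∧ sgn c = σ := by
      intro σ c hc
      exact Finset.mem_filter.1 hc
    by_cases hB : ∃ σ, θ ≤ ∑ c ∈ Cσ σ, w c
    · obtain ⟨σ, hσ⟩ := hB
      obtain ⟨C, hCs, h1, h2⟩ := sub_sum w θ (Cσ σ)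
        (fun c hc => hA c (hCσ σ c hc).1 (hCσ σ c hc).2.1 (hCσ σ c hc).2.2.1) hσ
      right
      have h3 : ∑ x ∈ cut par K C, ω x = ∑ c ∈ C, w c := by
        rw [hcutU, hsumU C (fun c hc => ⟨(hCσ σ c (hCs hc)).2.1, (hCσ σ c (hCs hc)).2.2.1⟩)]
      refine ⟨σ, C, fun c hc => hCσ σ c (hCs hc), ?_, ?_⟩
      · rw [h3]; exact h1
      · rw [h3]; omega
    · push Not at hB
      left
      have h1 : T v ⊆ insert v ((Cσ true ∪ Cσ false).biUnion T) := by
        intro x hx
        obtain ⟨hxK, hxv⟩ := Finset.mem_filter.1 hx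
        by_cases hxe : x = v
        · rw [hxe]; exact Finset.mem_insert_self _ _
        · have hex := (mem_dsc par v x).1 hxv
          have hk := Nat.find_spec hex
          have hk0 : Nat.find hex ≠ 0 := by
            intro h0
            rw [h0] at hk
            exact hxe hk
          obtain ⟨k, hk'⟩ := Nat.exists_eq_succ_of_ne_zero hk0
          have hmin : par^[k] x ≠ v := Nat.find_min hex (by omega)
          rw [hk', Function.iterate_succ_apply'] at hk
          have hKit : ∀ j, par^[j] x ∈ K := by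
            intro j
            induction j with
            | zero => exact hxK
            | succ j ih => rw [Function.iterate_succ_apply']; exact hK _ ih
          have hcr : par^[k] x ≠ r := by
            intro h
            rw [h, hR.2.1] at hk
            exact hmin (h.trans hk)
          refine Finset.mem_insert_of_mem (Finset.mem_biUnion.2 ⟨par^[k] x, ?_, ?_⟩)
          · cases hs : sgn (par^[k] x) with
            | true =>
              exact Finset.mem_union_left _ (Finset.mem_filter.2 ⟨hKit k, hcr, hk, hs⟩)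
            | false =>
              exact Finset.mem_union_right _ (Finset.mem_filter.2 ⟨hKit k, hcr, hk, hs⟩)
          · exact Finset.mem_filter.2 ⟨hxK, (mem_dsc par _ x).2 ⟨k, rfl⟩⟩
      have h2 : w v ≤ ω v + (∑ c ∈ Cσ true, w c + ∑ c ∈ Cσ false, w c) := by
        have hd : Disjoint (Cσ true) (Cσ false) := by
          rw [Finset.disjoint_left]
          intro c hc hc'
          have a1 := (hCσ true c hc).2.2.2
          have a2 := (hCσ false c hc').2.2.2
          rw [a1] at a2
          exact Bool.noConfusion a2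
        rw [← Finset.sum_union hd, ← hsumU (Cσ true ∪ Cσ false) (fun c hc => by
          rcases Finset.mem_union.1 hc with h | h
          · exact ⟨(hCσ _ c h).2.1, (hCσ _ c h).2.2.1⟩
          · exact ⟨(hCσ _ c h).2.1, (hCσ _ c h).2.2.1⟩)]
        have h3 : w v ≤ ∑ x ∈ insert v ((Cσ true ∪ Cσ false).biUnion T), ω x :=
          Finset.sum_le_sum_of_subset h1
        refine h3.trans ?_
        by_cases hm : v ∈ (Cσ true ∪ Cσ false).biUnion T
        · rw [Finset.insert_eq_of_mem hm]
          exact Nat.le_add_left _ _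
        · rw [Finset.sum_insert hm]
      have h4 := hB true
      have h5 := hB false
      omega

theorem WT0 (h1 : DSC_stmt) : WT_stmt := by
  intro W _ _ r par dep hR sgn K hrK hK ω θ hθ
  obtain ⟨-, -, -, d4, d5, -, -⟩ := h1 W r par dep hR
  exact wt_aux r par dep hR d4 d5 sgn K hrK hK ω θ hθ

open Classical in
lemma wgt_eq {W : Type} [Fintype W] (par : W → W) (sgn : W → Bool) (K S : Finset W) :
    wgt par sgn K S = ∑ c ∈ topd par sgn K true, if par c ∈ S then (dsc par c).card else 0 := by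
  unfold wgt topv
  rw [Finset.sum_filter]

lemma wgt_sum {W : Type} [Fintype W] (par : W → W) (sgn : W → Bool) (K S : Finset W) :
    wgt par sgn K S = ∑ x ∈ S, wgt par sgn K {x} := by
  classical
  simp only [wgt_eq, Finset.mem_singleton]
  rw [Finset.sum_comm]
  refine Finset.sum_congr rfl (fun c _ => ?_)
  rw [Finset.sum_ite_eq]

open Classical in
lemma topd_par {W : Type} [Fintype W] (par : W → W) (sgn : W → Bool) (K : Finset W) (c : W)
    (hc : c ∈ topd par sgn K true) : par c ∈ K := by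
  unfold topd tops at hc
  rw [Finset.mem_filter, Finset.mem_filter] at hc
  exact hc.1.2.2

lemma wgt_mas {W : Type} [Fintype W] (par : W → W) (sgn : W → Bool) (K : Finset W) :
    wgt par sgn K K = mas par sgn K true := by
  classical
  rw [wgt_eq]
  unfold mas
  refine Finset.sum_congr rfl (fun c hc => ?_)
  rw [if_pos (topd_par par sgn K c hc)]

theorem WGT0 : WGT_stmt := by
  intro W _ _ par sgn K
  refine ⟨fun S => wgt_sum par sgn K S, wgt_mas par sgn K, fun S hS => ?_⟩
  rw [← wgt_mas, wgt_sum par sgn K S, wgt_sum par sgn K (K \ S), wgt_sum par sgn K K, add_comm]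
  exact Finset.sum_sdiff hS

end Pool.Agent.Helper27.SU.WTs

namespace Pool.Agent.Helper27.SU

open Pool.Agent.Helper18.SU

theorem WT (h1 : DSC_stmt) : WT_stmt := WTs.WT0 h1

theorem WGT : WGT_stmt := WTs.WGT0

end Pool.Agent.Helper27.SU
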