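import Pool.Agent.Helper18.SU.Goals

/-! Facts about the reachable sets. -/

set_option autoImplicit false

namespace Pool.Agent.Helper27.SU

open Pool.Agent.Helper18.SU

theorem mem_reach {V : Type} (A : V → V → Prop) (d : Bool) (X : Finset V) (x y : V) :
    y ∈ Reach A d X x ↔
      y ∈ X ∧ Relation.ReflTransGen (fun a b => a ∈ X ∧ b ∈ X ∧ Arc A d a b) x y := by
  classical
  unfold Reach
  exact Finset.mem_filter

theorem REA : REA_stmt := by
  classical
  intro V _ A hA d X
  have h1 : ∀ x, Reach A d X x ⊆ X := fun x y hy => ((mem_reach A d X x y).1 hy).1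
  have h2 : ∀ x ∈ X, x ∈ Reach A d X x := fun x hx =>
    (mem_reach A d X x x).2 ⟨hx, Relation.ReflTransGen.refl⟩
  have h3 : ∀ x ∈ X, ∀ y ∈ X, y ∈ Reach A d X x → Reach A d X y ⊆ Reach A d X x := by
    intro x _ y _ hxy z hz
    rw [mem_reach] at hxy hz ⊢
    exact ⟨hz.1, hxy.2.trans hz.2⟩
  have h4 : ∀ x ∈ X, ∀ y ∈ Reach A d X x, ∀ z ∈ X, Arc A d y z → z ∈ Reach A d X x := by
    intro x _ y hy z hz hyz
    have hyX := h1 x hy
    rw [mem_reach] at hy ⊢
    exact ⟨hz, hy.2.tail ⟨hyX, hz, hyz⟩⟩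
  have harc : ∀ x y : V, x ≠ y → Arc A d x y ∨ Arc A d y x := by
    intro x y hxy
    cases d with
    | true => exact hA.2 x y hxy
    | false => exact (hA.2 x y hxy).symm
  have h5 : ∀ x ∈ X, ∀ y ∈ X, y ∈ Reach A d X x ∨ x ∈ Reach A d X y := by
    intro x hx y hy
    by_cases hxy : x = y
    · subst hxy
      exact Or.inl (h2 x hx)
    · rcases harc x y hxy with h | h
      · exact Or.inl (h4 x hx x (h2 x hx) y hy h)
      · exact Or.inr (h4 y hy y (h2 y hy) x hx h)
  refine ⟨h1, h2, h3, h4, h5, ?_, ?_, ?_⟩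
  · intro x X' hX' y hy
    rw [mem_reach] at hy ⊢
    refine ⟨hX' hy.1, ?_⟩
    have hz := hy.2
    clear hy
    induction hz with
    | refl => exact Relation.ReflTransGen.refl
    | tail _ hab ih => exact ih.tail ⟨hX' hab.1, hX' hab.2.1, hab.2.2⟩
  · intro x hx y hy hyx
    rw [mem_reach] at hy
    have hmain : ∀ z, Relation.ReflTransGen (fun a b => a ∈ X ∧ b ∈ X ∧ Arc A d a b) x z →
        z = x ∨ ∃ u ∈ X.erase x, Arc A d x u ∧ z ∈ Reach A d (X.erase x) u := by
      intro z hz
      induction hz with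
      | refl => exact Or.inl rfl
      | @tail b c _ hbc ih =>
        by_cases hc : c = x
        · exact Or.inl hc
        · have hcX : c ∈ X.erase x := Finset.mem_erase.2 ⟨hc, hbc.2.1⟩
          refine Or.inr ?_
          rcases ih with hb | ⟨u, hu, hxu, hbu⟩
          · subst hb
            exact ⟨c, hcX, hbc.2.2, (mem_reach A d _ c c).2 ⟨hcX, Relation.ReflTransGen.refl⟩⟩
          · refine ⟨u, hu, hxu, ?_⟩
            rw [mem_reach] at hbu ⊢
            exact ⟨hcX, hbu.2.tail ⟨hbu.1, hcX, hbc.2.2⟩⟩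
    rcases hmain y hy.2 with h | h
    · exact absurd h hyx
    · exact h
  · intro U hU hne
    obtain ⟨u, hu, hmax⟩ := Finset.exists_max_image U (fun u => (Reach A d X u).card) hne
    refine ⟨u, hu, fun v hv => ?_⟩
    rcases h5 u (hU hu) v (hU hv) with h | h
    · exact h3 u (hU hu) v (hU hv) h
    · have hsub := h3 v (hU hv) u (hU hu) h
      have heq := Finset.eq_of_subset_of_card_le hsub (hmax v hv)
      rw [heq]

end Pool.Agent.Helper27.SU
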